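import Pool.Agent.Helper591.Cohn.Core

/-!
# Elements of free algebras generating proper ideals, over an arbitrary field
-/

set_option autoImplicit false

namespace Pool.Agent.Results.MP_35f30a_al.CommutatorSquareCriterion

open Pool.Agent.Helper591.Cohn

/-- Let `k` be any field, `f` an element of the free algebra `k⟨X⟩` and `I` the commutator ideal.
The two-sided ideal generated by `f` is proper in each of the following cases.

1. `f = c + g + n` with `c` a scalar, `g ∈ I \ I²` homogeneous of weight `d ≥ 1` for some integer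
weights of the letters, and `n` a sum of products `u₁ ⋯ u_r`, `r ≥ 1`, of homogeneous elements of
`I` of total weight less than `r d`.
2. `f` has degree at most `D` and, for some `e > D / 2`, its homogeneous component of degree `e` is
not in `I²`.
3. `f` is not constant and has degree at most three. -/
theorem result (k : Type) [Field k] (X : Type) (f : FreeAlgebra k X)
    (h : (∃ (w : X → ℤ) (d : ℤ) (c : k) (g n : FreeAlgebra k X), 1 ≤ d ∧ g ∈ hom k w d ∧
        ab k X g = 0 ∧ g ∉ I2 k X ∧ n ∈ small k w d ∧ f = algebraMap k _ c + g + n) ∨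
      (∃ D e : ℕ, f ∈ deg k D ∧ D < 2 * e ∧ comp k e f ∉ I2 k X) ∨
      (f ∈ deg k 3 ∧ f ∉ Set.range (algebraMap k (FreeAlgebra k X)))) :
    TwoSidedIdeal.span ({f} : Set (FreeAlgebra k X)) ≠ ⊤ := by
  rcases h with ⟨w, d, c, g, n, hd, hg, hg0, hg2, hn, rfl⟩ | ⟨D, e, h1, h2, h3⟩ | ⟨h1, h2⟩
  · exact criterion k X w d hd c g n hg hg0 hg2 hn
  · exact core D e (by omega) (Or.inl h2) f h1 h3
  · exact cubic f h1 h2

end Pool.Agent.Results.MP_35f30a_al.CommutatorSquareCriterion
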