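import Pool.Agent.Helper591.Cohn.Descent

/-!
# Free algebras: elements with a transcendental constant term
-/

set_option autoImplicit false

namespace Pool.Agent.Results.MP_35f30a_al.TranscendentalConstant

open Pool.Agent.Helper591.Cohn

/-- Let `k ⊆ K` be fields, `g` an element of the free algebra `k⟨X⟩` that is not in `k + I²`, where
`I` is the commutator ideal, and `c ∈ K` transcendental over `k`. Then `g - c` generates a proper
two-sided ideal of `K⟨X⟩`. -/
theorem result (k K : Type) [Field k] [Field K] [Algebra k K] (X : Type)
    (g : FreeAlgebra k X) (hg : ∀ r : k, g - algebraMap k (FreeAlgebra k X) r ∉ I2 k X)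
    (c : K) (hc : Transcendental k c) :
    TwoSidedIdeal.span
      ({extK k K X g - algebraMap K (FreeAlgebra K X) c} : Set (FreeAlgebra K X)) ≠ ⊤ :=
  transcendental_constant' k K X c hc g hg

end Pool.Agent.Results.MP_35f30a_al.TranscendentalConstant
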